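import Pool.Agent.Y165.GO.Fr

/-!
# Gabor frames in all dimensions, over arbitrary groups of time frequency shifts
-/

set_option autoImplicit false

open MeasureTheory

namespace Pool.Agent.Y165.GO

open Pool.Agent.Results.MP_6c6e33_an.GaborOrbit

/-- The Hilbert space of square integrable complex functions on `ℝⁿ`. -/
def L2n (n : ℕ) : Type := Lp ℂ 2 (volume : Measure (Fin n → ℝ))

noncomputable instance (n : ℕ) : NormedAddCommGroup (L2n n) :=
  Lp.instNormedAddCommGroup (E := ℂ) (p := 2) (μ := (volume : Measure (Fin n → ℝ)))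

noncomputable instance (n : ℕ) : InnerProductSpace ℂ (L2n n) :=
  L2.innerProductSpace (𝕜 := ℂ) (E := ℂ) (μ := (volume : Measure (Fin n → ℝ)))

instance (n : ℕ) : CompleteSpace (L2n n) :=
  inferInstanceAs (CompleteSpace (Lp ℂ 2 (volume : Measure (Fin n → ℝ))))

/-- A function representing the class `u`. -/
noncomputable def rep {n : ℕ} (u : L2n n) : (Fin n → ℝ) → ℂ :=
  let v : Lp ℂ 2 (volume : Measure (Fin n → ℝ)) := u
  v

/-- The time frequency shift `x ↦ exp (2 π i ⟨b, x⟩) u (x - a)` of a function `u`. -/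
noncomputable def shift {n : ℕ} (a b : Fin n → ℝ) (u : (Fin n → ℝ) → ℂ) (x : Fin n → ℝ) : ℂ :=
  Complex.exp (2 * Real.pi * Complex.I * ((∑ i, b i * x i : ℝ) : ℂ)) * u (x - a)

/-- The family `f`, indexed by an additive group `Λ`, is the Gabor system of `g` for the time
frequency shifts `(α k, β k)`: `f k` is the function `x ↦ exp (2 π i ⟨β k, x⟩) g (x - α k)`. -/
def IsGaborFamily {n : ℕ} {Λ : Type} [AddCommGroup Λ] (α β : Λ →+ (Fin n → ℝ))
    (g : L2n n) (f : Λ → L2n n) : Prop :=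
  ∀ k : Λ, rep (f k) =ᵐ[volume] shift (α k) (β k) (rep g)

variable {n : ℕ}

noncomputable def mdn (b x : Fin n → ℝ) : ℂ :=
  Complex.exp (((2 * Real.pi * ∑ i, b i * x i : ℝ) : ℂ) * Complex.I)

lemma norm_mdn (b x : Fin n → ℝ) : ‖mdn b x‖ = 1 :=
  Complex.norm_exp_ofReal_mul_I _

lemma mdn_add (b b' x : Fin n → ℝ) : mdn (b + b') x = mdn b x * mdn b' x := by
  unfold mdn
  rw [← Complex.exp_add]
  have h : ∑ i, (b + b') i * x i = ∑ i, b i * x i + ∑ i, b' i * x i := by
    rw [← Finset.sum_add_distrib]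
    exact Finset.sum_congr rfl fun i _ => by rw [Pi.add_apply]; ring
  rw [h]
  congr 1
  push_cast
  ring

lemma mdn_sub (b x y : Fin n → ℝ) : mdn b (x - y) = mdn b x * mdn b (-y) := by
  unfold mdn
  rw [← Complex.exp_add]
  have h : ∑ i, b i * (x - y) i = ∑ i, b i * x i + ∑ i, b i * (-y) i := by
    rw [← Finset.sum_add_distrib]
    exact Finset.sum_congr rfl fun i _ => by rw [Pi.sub_apply, Pi.neg_apply]; ring
  rw [h]
  congr 1
  push_cast
  ring

lemma shift_eq (a b : Fin n → ℝ) (u : (Fin n → ℝ) → ℂ) (x : Fin n → ℝ) :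
    shift a b u x = mdn b x * u (x - a) := by
  unfold shift mdn
  congr 2
  push_cast
  ring

lemma eLpNorm_tfn (a b : Fin n → ℝ) (u : (Fin n → ℝ) → ℂ)
    (hu : AEStronglyMeasurable u volume) :
    eLpNorm (fun x => mdn b x * u (x - a)) 2 volume = eLpNorm u 2 volume := by
  have h1 : eLpNorm (fun x => mdn b x * u (x - a)) 2 volume =
      eLpNorm (fun x => u (x - a)) 2 volume := by
    apply eLpNorm_congr_norm_ae
    filter_upwards with x
    rw [norm_mul, norm_mdn, one_mul]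
  rw [h1]
  exact eLpNorm_comp_measurePreserving hu
    (measurePreserving_sub_right (volume : Measure (Fin n → ℝ)) a)

lemma memLp_tfn (a b : Fin n → ℝ) {u : (Fin n → ℝ) → ℂ}
    (hu : MemLp u 2 volume) : MemLp (fun x => mdn b x * u (x - a)) 2 volume := by
  refine ⟨?_, ?_⟩
  · apply AEStronglyMeasurable.mul
    · apply Continuous.aestronglyMeasurable
      unfold mdn
      fun_prop
    · exact hu.1.comp_measurePreserving
        (measurePreserving_sub_right (volume : Measure (Fin n → ℝ)) a)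
  · rw [eLpNorm_tfn a b u hu.1]; exact hu.2

/-- Time frequency shift as a linear isometry. -/
noncomputable def tfn (a b : Fin n → ℝ) : Lp ℂ 2 (volume : Measure (Fin n → ℝ)) →ₗᵢ[ℂ]
    Lp ℂ 2 (volume : Measure (Fin n → ℝ)) where
  toFun u := MemLp.toLp (fun x => mdn b x * (u : (Fin n → ℝ) → ℂ) (x - a))
    (memLp_tfn a b (Lp.memLp u))
  map_add' u v := by
    rw [← MemLp.toLp_add]
    apply MemLp.toLp_congr
    have h := (measurePreserving_sub_right (volume : Measure (Fin n → ℝ))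
      a).quasiMeasurePreserving.ae (Lp.coeFn_add u v)
    filter_upwards [h] with x hx
    rw [hx]
    simp [mul_add]
  map_smul' c u := by
    rw [RingHom.id_apply, ← MemLp.toLp_const_smul]
    apply MemLp.toLp_congr
    have h := (measurePreserving_sub_right (volume : Measure (Fin n → ℝ))
      a).quasiMeasurePreserving.ae (Lp.coeFn_smul c u)
    filter_upwards [h] with x hx
    rw [hx]
    simp [mul_left_comm]
  norm_map' u := by
    simp only [LinearMap.coe_mk, AddHom.coe_mk, Lp.norm_toLp]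
    rw [eLpNorm_tfn a b _ (Lp.memLp u).1, Lp.norm_def]

lemma coeFn_tfn (a b : Fin n → ℝ) (u : Lp ℂ 2 (volume : Measure (Fin n → ℝ))) :
    (tfn a b u : (Fin n → ℝ) → ℂ) =ᵐ[volume]
      fun x => mdn b x * (u : (Fin n → ℝ) → ℂ) (x - a) :=
  MemLp.coeFn_toLp (memLp_tfn a b (Lp.memLp u))

lemma gabor_tfn {Λ : Type} [AddCommGroup Λ] (α β : Λ →+ (Fin n → ℝ)) (g : (Fin n → ℝ) → ℂ)
    (f : Λ → Lp ℂ 2 (volume : Measure (Fin n → ℝ)))
    (hf : ∀ k : Λ, (f k : (Fin n → ℝ) → ℂ) =ᵐ[volume] shift (α k) (β k) g) (ν μ : Λ) :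
    tfn (α ν) (β ν) (f μ) = mdn (β μ) (-(α ν)) • f (ν + μ) := by
  apply Lp.ext
  have h1 := coeFn_tfn (α ν) (β ν) (f μ)
  have h2 := Lp.coeFn_smul (mdn (β μ) (-(α ν))) (f (ν + μ))
  have h3 := hf (ν + μ)
  have h4 := (measurePreserving_sub_right (volume : Measure (Fin n → ℝ))
    (α ν)).quasiMeasurePreserving.ae (hf μ)
  filter_upwards [h1, h2, h3, h4] with x hx1 hx2 hx3 hx4
  rw [hx1, hx2, Pi.smul_apply, hx3, hx4, smul_eq_mul, shift_eq, shift_eq]
  have e1 : x - α ν - α μ = x - α (ν + μ) := by rw [map_add, sub_sub]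
  have e3 : β (ν + μ) = β ν + β μ := map_add β ν μ
  rw [e1, e3, mdn_add, mdn_sub]
  ring

lemma nontrivial_L2n : Nontrivial (L2n n) := by
  show Nontrivial (Lp ℂ 2 (volume : Measure (Fin n → ℝ)))
  refine ⟨⟨indicatorConstLp 2 (measurableSet_ball (x := (0 : Fin n → ℝ)) (ε := 1))
    (measure_ball_lt_top.ne) (1 : ℂ), 0, ?_⟩⟩
  intro h
  have h1 := norm_indicatorConstLp (p := 2) (μ := (volume : Measure (Fin n → ℝ)))
    (hs := measurableSet_ball (x := (0 : Fin n → ℝ)) (ε := 1))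
    (hμs := measure_ball_lt_top.ne) (c := (1 : ℂ)) (by norm_num) (by norm_num)
  rw [h, norm_zero, norm_one, one_mul] at h1
  have h2 : 0 < (volume : Measure (Fin n → ℝ)).real (Metric.ball (0 : Fin n → ℝ) 1) :=
    ENNReal.toReal_pos (Metric.measure_ball_pos volume _ one_pos).ne' measure_ball_lt_top.ne
  have h3 := Real.rpow_pos_of_pos h2 (1 / (ENNReal.toReal 2))
  linarith

/-- **Gabor frames over an arbitrary group of time frequency shifts.** -/
theorem gabor_group {Λ : Type} [AddCommGroup Λ] (α β : Λ →+ (Fin n → ℝ)) (g : L2n n)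
    (f : Λ → L2n n) (hf : IsGaborFamily α β g f) (hover : IsOvercompleteFrame f) :
    ¬ HasBoundedOrdering ℕ f ∧
      (HasBoundedOrdering ℤ f → VirtuallyZ (Multiplicative Λ)) := by
  obtain ⟨hframe, hR⟩ := hover
  have hnt := nontrivial_L2n (n := n)
  have hg : IsGroupFrame (Λ := Multiplicative Λ) f := by
    refine ⟨hframe, fun ν => ⟨tfn (α (Multiplicative.toAdd ν)) (β (Multiplicative.toAdd ν)),
      fun μ => mdn (β (Multiplicative.toAdd μ)) (-(α (Multiplicative.toAdd ν))),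
      fun _ => norm_mdn _ _, fun μ => ?_⟩⟩
    exact gabor_tfn α β (rep g) f hf (Multiplicative.toAdd ν) (Multiplicative.toAdd μ)
  exact ⟨no_nat (Λ := Multiplicative Λ) f hg hR, int_virt (Λ := Multiplicative Λ) f hg hR⟩

/-- a commutative group with two independent elements is not virtually cyclic -/
lemma not_virt_of_indep {Λ : Type*} [AddCommGroup Λ] (x y : Λ)
    (hxy : ∀ a b : ℤ, a • x = b • y → a = 0 ∧ b = 0) : ¬ VirtuallyZ (Multiplicative Λ) := by
  rintro ⟨h, -, hfin⟩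
  obtain ⟨N, hN, h1⟩ : ∃ N : ℕ, 0 < N ∧ ∀ g : Multiplicative Λ,
      g ^ N ∈ Subgroup.zpowers h := by
    refine ⟨(Subgroup.zpowers h).index, Nat.pos_of_ne_zero hfin.index_ne_zero, fun g => ?_⟩
    exact (Subgroup.zpowers h).pow_index_mem g
  obtain ⟨a, ha⟩ := Subgroup.mem_zpowers_iff.mp (h1 (Multiplicative.ofAdd x))
  obtain ⟨b, hb⟩ := Subgroup.mem_zpowers_iff.mp (h1 (Multiplicative.ofAdd y))
  obtain ⟨w, hw⟩ : ∃ w : Λ, w = Multiplicative.toAdd h := ⟨_, rfl⟩
  have ha' : a • w = N • x := by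
    rw [hw]; exact congrArg Multiplicative.toAdd ha
  have hb' : b • w = N • y := by
    rw [hw]; exact congrArg Multiplicative.toAdd hb
  have hN' : (N : ℤ) ≠ 0 := by exact_mod_cast hN.ne'
  have h2 : (b * (N : ℤ)) • x = (a * (N : ℤ)) • y := by
    rw [mul_smul, mul_smul, natCast_zsmul, natCast_zsmul, ← ha', ← hb', smul_smul, smul_smul,
      mul_comm]
  have h3 := (hxy _ _ h2).1
  have hb0 : b = 0 := (mul_eq_zero.mp h3).resolve_right hN'
  rw [hb0, zero_smul] at hb'
  have h4 : (0 : ℤ) • x = (N : ℤ) • y := by rw [zero_smul, natCast_zsmul, ← hb']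
  exact hN' (hxy _ _ h4).2

lemma not_virt_pi {r : ℕ} (hr : 2 ≤ r) : ¬ VirtuallyZ (Multiplicative (Fin r → ℤ)) := by
  have h01 : (⟨0, by omega⟩ : Fin r) ≠ ⟨1, by omega⟩ := by simp
  apply not_virt_of_indep (Pi.single ⟨0, by omega⟩ 1 : Fin r → ℤ) (Pi.single ⟨1, by omega⟩ 1)
  intro a b hab
  have h1 := congrFun hab ⟨0, by omega⟩
  have h2 := congrFun hab ⟨1, by omega⟩
  simp only [Pi.smul_apply, Pi.single_eq_same, Pi.single_eq_of_ne h01, smul_eq_mul, mul_one,
    Pi.single_eq_of_ne h01.symm, mul_zero] at h1 h2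
  exact ⟨h1, h2.symm⟩

end Pool.Agent.Y165.GO
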