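import Mathlib

/-!
# Groups acting on the integers by uniformly Lipschitz bijections
-/

set_option autoImplicit false

namespace Pool.Agent.Y165.GO

/-- The group has an infinite cyclic subgroup of finite index. -/
def VirtuallyZ (Λ : Type*) [Group Λ] : Prop :=
  ∃ h : Λ, (∀ n : ℕ, 0 < n → h ^ n ≠ 1) ∧ (Subgroup.zpowers h).FiniteIndex

lemma lip_nat {f : ℤ → ℤ} {D : ℤ} (h : ∀ q, |f (q + 1) - f q| ≤ D) (q : ℤ) (n : ℕ) :
    |f (q + n) - f q| ≤ D * n := by
  induction n with
  | zero => simp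
  | succ n ih =>
    have h1 := h (q + n)
    have e : q + ((n + 1 : ℕ) : ℤ) = q + n + 1 := by push_cast; ring
    rw [e]
    have h2 : f (q + n + 1) - f q = (f (q + n + 1) - f (q + n)) + (f (q + n) - f q) := by ring
    rw [h2]
    calc _ ≤ |f (q + n + 1) - f (q + n)| + |f (q + n) - f q| := abs_add_le _ _
      _ ≤ D + D * n := add_le_add h1 ih
      _ = D * ((n + 1 : ℕ) : ℤ) := by push_cast; ring

lemma lip {f : ℤ → ℤ} {D : ℤ} (h : ∀ q, |f (q + 1) - f q| ≤ D) (i j : ℤ) :
    |f i - f j| ≤ D * |i - j| := by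
  rcases le_total j i with hij | hij
  · have h1 := lip_nat h j (i - j).toNat
    have e : ((i - j).toNat : ℤ) = i - j := Int.toNat_of_nonneg (by linarith)
    rw [e] at h1
    rw [abs_of_nonneg (show 0 ≤ i - j by linarith)]
    simpa using h1
  · have h1 := lip_nat h i (j - i).toNat
    have e : ((j - i).toNat : ℤ) = j - i := Int.toNat_of_nonneg (by linarith)
    rw [e] at h1
    rw [abs_sub_comm, abs_sub_comm i j, abs_of_nonneg (show 0 ≤ j - i by linarith)]
    simpa using h1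

section

variable {G : Type*} [Group G] (ψ : G → ℤ → ℤ) (D : ℤ)

/-- a uniformly Lipschitz action on the integers, free and transitive -/
structure Act : Prop where
  one : ∀ q, ψ 1 q = q
  mul : ∀ a b q, ψ (a * b) q = ψ a (ψ b q)
  pos : 1 ≤ D
  lip : ∀ a q, |ψ a (q + 1) - ψ a q| ≤ D
  free : ∀ a b q, ψ a q = ψ b q → a = b
  trans : ∀ m, ∃ a, ψ a 0 = m

variable {ψ D}

lemma Act.inv_mul (h : Act ψ D) (a : G) (q : ℤ) : ψ a⁻¹ (ψ a q) = q := by
  rw [← h.mul, inv_mul_cancel, h.one]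

lemma Act.mul_inv (h : Act ψ D) (a : G) (q : ℤ) : ψ a (ψ a⁻¹ q) = q := by
  rw [← h.mul, mul_inv_cancel, h.one]

lemma Act.l1 (h : Act ψ D) (a : G) (i j : ℤ) : |ψ a i - ψ a j| ≤ D * |i - j| :=
  GO.lip (h.lip a) i j

lemma Act.l2 (h : Act ψ D) (a : G) (i j : ℤ) : |i - j| ≤ D * |ψ a i - ψ a j| := by
  have h1 := h.l1 a⁻¹ (ψ a i) (ψ a j)
  rwa [h.inv_mul, h.inv_mul] at h1

/-- far points keep their order: one step in the first variable -/
lemma Act.step1 (h : Act ψ D) (a : G) {i j : ℤ} (hij : D ^ 2 < i - j) :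
    ψ a j < ψ a i ↔ ψ a j < ψ a (i + 1) := by
  have hD := h.pos
  have h1 := h.l2 a i j
  have h2 := h.l2 a (i + 1) j
  have h3 := h.lip a i
  rw [abs_of_pos (show 0 < i - j by nlinarith)] at h1
  rw [abs_of_pos (show 0 < i + 1 - j by nlinarith)] at h2
  rw [abs_le] at h3
  constructor
  · intro h4
    by_contra hcon
    push Not at hcon
    rw [abs_of_pos (show 0 < ψ a i - ψ a j by linarith)] at h1
    nlinarith
  · intro h4
    by_contra hcon
    push Not at hcon
    rw [abs_of_pos (show 0 < ψ a (i + 1) - ψ a j by linarith)] at h2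
    nlinarith

/-- far points keep their order: one step in the second variable -/
lemma Act.step2 (h : Act ψ D) (a : G) {i j : ℤ} (hij : D ^ 2 < i - j) :
    ψ a j < ψ a i ↔ ψ a (j - 1) < ψ a i := by
  have hD := h.pos
  have h1 := h.l2 a i j
  have h2 := h.l2 a i (j - 1)
  have h3 := h.lip a (j - 1)
  rw [abs_of_pos (show 0 < i - j by nlinarith)] at h1
  rw [abs_of_pos (show 0 < i - (j - 1) by nlinarith)] at h2
  rw [sub_add_cancel, abs_le] at h3
  constructor
  · intro h4
    by_contra hcon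
    push Not at hcon
    rw [abs_of_pos (show 0 < ψ a i - ψ a j by linarith)] at h1
    nlinarith
  · intro h4
    by_contra hcon
    push Not at hcon
    rw [abs_of_pos (show 0 < ψ a i - ψ a (j - 1) by linarith)] at h2
    nlinarith

lemma Act.up1 (h : Act ψ D) (a : G) {i j : ℤ} (hij : D ^ 2 < i - j) (n : ℕ) :
    ψ a j < ψ a i ↔ ψ a j < ψ a (i + n) := by
  induction n with
  | zero => simp
  | succ n ih =>
    rw [ih, h.step1 a (i := i + n) (by linarith [(Int.natCast_nonneg n)])]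
    push_cast
    rw [add_assoc]

lemma Act.up2 (h : Act ψ D) (a : G) {i j : ℤ} (hij : D ^ 2 < i - j) (n : ℕ) :
    ψ a j < ψ a i ↔ ψ a (j - n) < ψ a i := by
  induction n with
  | zero => simp
  | succ n ih =>
    rw [ih, h.step2 a (j := j - n) (by linarith [(Int.natCast_nonneg n)])]
    push_cast
    rw [sub_sub]

lemma Act.same (h : Act ψ D) (a : G) {i j i' j' : ℤ} (hij : D ^ 2 < i - j)
    (hij' : D ^ 2 < i' - j') : ψ a j < ψ a i ↔ ψ a j' < ψ a i' := by
  have key : ∀ {i j : ℤ}, D ^ 2 < i - j → ∀ {I J : ℤ}, i ≤ I → J ≤ j →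
      (ψ a j < ψ a i ↔ ψ a J < ψ a I) := by
    intro i j hij I J hI hJ
    have e1 : i + ((I - i).toNat : ℤ) = I := by
      rw [Int.toNat_of_nonneg (by linarith)]; ring
    have e2 : j - ((j - J).toNat : ℤ) = J := by
      rw [Int.toNat_of_nonneg (by linarith)]; ring
    rw [h.up1 a hij (I - i).toNat, e1, h.up2 a (i := I) (by linarith) (j - J).toNat, e2]
  rw [key hij (le_max_left i i') (min_le_left j j'), key hij' (le_max_right i i')
    (min_le_right j j')]

/-- orientation preserving -/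
def OP (ψ : G → ℤ → ℤ) (D : ℤ) (a : G) : Prop := ψ a 0 < ψ a (D ^ 2 + 1)

lemma Act.op (h : Act ψ D) {a : G} (ha : OP ψ D a) {i j : ℤ} (hij : D ^ 2 < i - j) :
    ψ a j < ψ a i := (h.same a (i := D ^ 2 + 1) (j := 0) (by linarith) hij).mp ha

lemma Act.inj (h : Act ψ D) (a : G) {i j : ℤ} (hij : ψ a i = ψ a j) : i = j := by
  rw [← h.inv_mul a i, hij, h.inv_mul]

lemma Act.or (h : Act ψ D) {a : G} (ha : ¬ OP ψ D a) {i j : ℤ} (hij : D ^ 2 < i - j) :
    ψ a i < ψ a j := by
  have h1 : ¬ ψ a j < ψ a i := fun h2 =>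
    ha ((h.same a (i := D ^ 2 + 1) (j := 0) (by linarith) hij).mpr h2)
  rcases lt_or_eq_of_le (not_lt.mp h1) with h2 | h2
  · exact h2
  · exfalso
    have h3 := h.inj a h2
    have hD := h.pos
    nlinarith

lemma Act.far (h : Act ψ D) (a : G) {i j : ℤ} (hij : D ^ 3 < |i - j|) :
    D ^ 2 < |ψ a i - ψ a j| := by
  have h1 := h.l2 a i j
  have hD := h.pos
  by_contra hcon
  push Not at hcon
  have h2 : D * |ψ a i - ψ a j| ≤ D * D ^ 2 := mul_le_mul_of_nonneg_left hcon (by linarith)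
  have h3 : D * D ^ 2 = D ^ 3 := by ring
  linarith

lemma Act.op_far (h : Act ψ D) {a : G} (ha : OP ψ D a) {i j : ℤ} (hij : D ^ 3 < i - j) :
    D ^ 2 < ψ a i - ψ a j := by
  have hD := h.pos
  have hD3 : D ^ 2 ≤ D ^ 3 := by nlinarith [sq_nonneg D]
  have h0 : 0 ≤ D ^ 3 := by positivity
  have h1 := h.far a (i := i) (j := j) (by rw [abs_of_pos (by linarith)]; exact hij)
  have h2 := h.op ha (i := i) (j := j) (by linarith)
  rwa [abs_of_pos (by linarith)] at h1

lemma Act.or_far (h : Act ψ D) {a : G} (ha : ¬ OP ψ D a) {i j : ℤ} (hij : D ^ 3 < i - j) :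
    D ^ 2 < ψ a j - ψ a i := by
  have hD := h.pos
  have hD3 : D ^ 2 ≤ D ^ 3 := by nlinarith [sq_nonneg D]
  have h0 : 0 ≤ D ^ 3 := by positivity
  have h1 := h.far a (i := i) (j := j) (by rw [abs_of_pos (by linarith)]; exact hij)
  have h2 := h.or ha (i := i) (j := j) (by linarith)
  rwa [abs_of_neg (by linarith), neg_sub] at h1

lemma Act.op_mul (h : Act ψ D) {a b : G} (ha : OP ψ D a) (hb : OP ψ D b) : OP ψ D (a * b) := by
  by_contra hcon
  have hD := h.pos
  have hD3 : D ^ 2 ≤ D ^ 3 := by nlinarith [sq_nonneg D]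
  have h1 := h.op_far hb (i := D ^ 3 + 1) (j := 0) (by linarith)
  have h2 := h.op ha h1
  have h3 := h.or hcon (i := D ^ 3 + 1) (j := 0) (by linarith)
  rw [h.mul, h.mul] at h3
  linarith

lemma Act.op_inv (h : Act ψ D) {a : G} (ha : OP ψ D a) : OP ψ D a⁻¹ := by
  by_contra hcon
  have hD := h.pos
  have hD3 : 0 ≤ D ^ 3 := by positivity
  have h1 := h.or_far hcon (i := D ^ 3 + 1) (j := 0) (by linarith)
  have h2 := h.op ha h1
  rw [h.mul_inv, h.mul_inv] at h2
  linarith

lemma Act.op_one (h : Act ψ D) : OP ψ D 1 := by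
  unfold OP
  rw [h.one, h.one]
  positivity

lemma Act.or_or (h : Act ψ D) {a b : G} (ha : ¬ OP ψ D a) (hb : ¬ OP ψ D b) :
    OP ψ D (b * a⁻¹) := by
  by_contra hcon
  have hD := h.pos
  have hD3 : D ^ 2 ≤ D ^ 3 := by nlinarith [sq_nonneg D]
  have h1 := h.or_far ha (i := D ^ 3 + 1) (j := 0) (by linarith)
  have h2 := h.or hcon h1
  rw [← h.mul, ← h.mul, inv_mul_cancel_right] at h2
  have h3 := h.or hb (i := D ^ 3 + 1) (j := 0) (by linarith)
  linarith

lemma Act.op_pow (h : Act ψ D) {a : G} (ha : OP ψ D a) (n : ℤ) : OP ψ D (a ^ n) := by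
  induction n using Int.induction_on with
  | zero => rw [zpow_zero]; exact h.op_one
  | succ n ih => rw [zpow_add_one]; exact h.op_mul ih ha
  | pred n ih => rw [zpow_sub_one]; exact h.op_mul ih (h.op_inv ha)

/-- an orientation preserving element with a large displacement -/
lemma Act.exists_shift (h : Act ψ D) : ∃ (a : G) (x : ℤ), OP ψ D a ∧ D ^ 2 < ψ a x - x := by
  have hD := h.pos
  have hD2 : 0 ≤ D ^ 2 := by positivity
  obtain ⟨a, ha⟩ := h.trans (D ^ 2 + 1)
  obtain ⟨b, hb⟩ := h.trans (2 * (D ^ 2 + 1))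
  by_cases h1 : OP ψ D a
  · exact ⟨a, 0, h1, by rw [ha]; linarith⟩
  by_cases h2 : OP ψ D b
  · exact ⟨b, 0, h2, by rw [hb]; linarith⟩
  refine ⟨b * a⁻¹, D ^ 2 + 1, h.or_or h1 h2, ?_⟩
  have h3 : ψ (b * a⁻¹) (D ^ 2 + 1) = 2 * (D ^ 2 + 1) := by
    rw [← ha, ← h.mul, inv_mul_cancel_right, hb, ha]
  rw [h3]
  linarith

lemma strictMono_grow {t : ℤ → ℤ} (ht : ∀ n, t n < t (n + 1)) (n : ℤ) (k : ℕ) :
    t n + k ≤ t (n + k) := by
  induction k with
  | zero => simp
  | succ k ih =>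
    have h1 := ht (n + k)
    have e : n + ((k + 1 : ℕ) : ℤ) = n + k + 1 := by push_cast; ring
    rw [e]
    push_cast
    linarith

/-- **The main lemma on actions.** -/
theorem Act.main (h : Act ψ D) : ∃ (a : G) (F : Set G), F.Finite ∧
    (∀ n : ℕ, 0 < n → a ^ n ≠ 1) ∧ ∀ g, ∃ n : ℤ, ∃ x ∈ F, g = a ^ n * x := by
  have hD := h.pos
  obtain ⟨a, x, ha, hx⟩ := h.exists_shift
  set y := ψ a x with hy
  set B := D * (y - x) with hB
  set t : ℤ → ℤ := fun n => ψ (a ^ n) x with ht
  have htn : ∀ n, t (n + 1) = ψ (a ^ n) y := by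
    intro n
    rw [ht, hy]
    simp only
    rw [zpow_add_one, h.mul]
  have hinc : ∀ n, t n < t (n + 1) := by
    intro n
    rw [htn]
    exact h.op (h.op_pow ha n) hx
  have hstep : ∀ n, t (n + 1) - t n ≤ B := by
    intro n
    rw [htn]
    have h1 := h.l1 (a ^ n) y x
    rw [abs_of_pos (show 0 < y - x by nlinarith [sq_nonneg D])] at h1
    exact (le_abs_self _).trans h1
  refine ⟨a, {g | |ψ g x - x| ≤ D * B}, ?_, ?_, ?_⟩
  · refine Set.Finite.of_finite_image (f := fun g => ψ g x)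
      ((Set.finite_Icc (x - D * B) (x + D * B)).subset ?_) ?_
    · rintro _ ⟨g, hg, rfl⟩
      have hg' : |ψ g x - x| ≤ D * B := hg
      rw [abs_le] at hg'
      exact ⟨by linarith [hg'.1], by linarith [hg'.2]⟩
    · intro g _ g' _ hgg
      exact h.free g g' x hgg
  · intro n hn h1
    have h2 := strictMono_grow hinc 0 n
    rw [zero_add] at h2
    have h3 : t (n : ℤ) = t 0 := by
      rw [ht]
      simp only [zpow_natCast, h1, zpow_zero]
    rw [h3] at h2
    have h4 : (0 : ℤ) < n := by exact_mod_cast hn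
    linarith
  · intro g
    set m := ψ g x with hm
    obtain ⟨n, hn1, hn2⟩ : ∃ n : ℤ, t n ≤ m ∧ ∀ z : ℤ, t z ≤ m → z ≤ n := by
      apply Int.exists_greatest_of_bdd
      · refine ⟨|m| + |t 0|, fun z hz => ?_⟩
        by_contra hcon
        push Not at hcon
        have h0 : 0 ≤ z := by
          have := abs_nonneg m
          have := abs_nonneg (t 0)
          linarith
        have h1 := strictMono_grow hinc 0 z.toNat
        rw [zero_add, Int.toNat_of_nonneg h0] at h1
        have h2 := neg_abs_le (t 0)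
        have h3 := le_abs_self m
        linarith
      · refine ⟨-(|m| + |t 0|), ?_⟩
        have h1 := strictMono_grow hinc (-(|m| + |t 0|)) (|m| + |t 0|).toNat
        rw [Int.toNat_of_nonneg (by positivity), neg_add_cancel] at h1
        have h2 := neg_abs_le m
        have h3 := le_abs_self (t 0)
        linarith
    have h1 : m < t (n + 1) := by
      by_contra hcon
      push Not at hcon
      have := hn2 (n + 1) hcon
      linarith
    have h2 := hstep n
    refine ⟨n, (a ^ n)⁻¹ * g, ?_, by rw [mul_inv_cancel_left]⟩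
    show |ψ ((a ^ n)⁻¹ * g) x - x| ≤ D * B
    have h3 : ψ (a ^ n)⁻¹ (t n) = x := h.inv_mul (a ^ n) x
    have h4 := h.l1 (a ^ n)⁻¹ m (t n)
    rw [h3] at h4
    rw [h.mul]
    refine h4.trans ?_
    apply mul_le_mul_of_nonneg_left _ (by linarith)
    rw [abs_of_nonneg (by linarith)]
    linarith

end

end Pool.Agent.Y165.GO
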