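import Pool.Agent.Y165.GO.Ker
import Pool.Agent.Results.MP_6c6e33_an.GaborOrbit

/-!
# Bounded orbits and overcomplete group frames
-/

set_option autoImplicit false

namespace Pool.Agent.Y165.GO

open Pool.Agent.Results.MP_6c6e33_an.GaborOrbit

/-- A frame indexed by a group `Λ` on which `Λ` acts by isometries up to phase factors: for every
`ν` there is a linear isometry of `H` mapping `f μ` to a unimodular multiple of `f (ν μ)`, for all
`μ`. This is the case if `f μ = π μ g` for a projective unitary representation `π` of `Λ`. -/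
def IsGroupFrame {H : Type*} [NormedAddCommGroup H] [InnerProductSpace ℂ H] {Λ : Type*} [Group Λ]
    (f : Λ → H) : Prop :=
  IsFrame f ∧ ∀ ν : Λ, ∃ (π : H →ₗᵢ[ℂ] H) (u : Λ → ℂ), (∀ μ, ‖u μ‖ = 1) ∧
    ∀ μ, π (f μ) = u μ • f (ν * μ)

section

variable {H : Type*} [NormedAddCommGroup H] [InnerProductSpace ℂ H] [CompleteSpace H]
  [Nontrivial H] {Λ : Type*} [Group Λ]

/-- The kernel of the inverse frame operator. -/
lemma core' (f : Λ → H) (hg : IsGroupFrame f) (hover : ¬ IsRieszBasis f) :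
    ∃ (R : H →L[ℂ] H) (v : ℝ), (∀ x, sy f hg.1.bes (an f hg.1.bes (R x)) = x) ∧
      (∀ ν μ l, ‖(inner ℂ (f (ν * μ)) (R (f (ν * l))) : ℂ)‖ = ‖(inner ℂ (f μ) (R (f l)) : ℂ)‖) ∧
      (∀ μ, (inner ℂ (f μ) (R (f μ)) : ℂ) = (v : ℂ)) ∧
      ¬ (∀ μ l, μ ≠ l → (inner ℂ (f μ) (R (f l)) : ℂ) = 0) := by
  obtain ⟨hframe, hgrp⟩ := hg
  have hb := hframe.bes
  have hframe' := hframe
  obtain ⟨A, B, hA, hB, h⟩ := hframe'
  obtain ⟨R, hR1, hR2⟩ := frame_inv f hb A hA (fun x => (h x).2.1)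
  have hcov : ∀ ν μ l : Λ, ‖(inner ℂ (f (ν * μ)) (R (f (ν * l))) : ℂ)‖ =
      ‖(inner ℂ (f μ) (R (f l)) : ℂ)‖ := by
    intro ν μ l
    obtain ⟨π, u, hu, hπ⟩ := hgrp ν
    exact covariance f hb R hR1 hR2 π (Equiv.mulLeft ν) u hu (fun μ => hπ μ) μ l
  have hdiag : ∀ μ, (inner ℂ (f μ) (R (f μ)) : ℂ) = ((‖an f hb (R (f μ))‖ ^ 2 : ℝ) : ℂ) := by
    intro μ
    rw [inner_R f hb R hR2, inner_self_eq_norm_sq_to_K]
    norm_cast
  have hd2 : ∀ μ, (inner ℂ (f μ) (R (f μ)) : ℂ) = ((‖(inner ℂ (f 1) (R (f 1)) : ℂ)‖ : ℝ) : ℂ) := by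
    intro μ
    have h1 := hcov μ 1 1
    rw [mul_one] at h1
    rw [← h1, hdiag μ, Complex.norm_real, Real.norm_of_nonneg (by positivity)]
  refine ⟨R, _, hR2, hcov, hd2, ?_⟩
  intro horth
  apply hover
  refine riesz_of_orth f hb R hR2 _ ?_ hd2 horth
  intro h0
  have h1 : ∀ μ, f μ = 0 := by
    intro μ
    have h2 := hd2 μ
    rw [h0, hdiag μ] at h2
    have h3 : ‖an f hb (R (f μ))‖ ^ 2 = 0 := by exact_mod_cast h2
    have h4 : an f hb (R (f μ)) = 0 := by simpa using h3
    have h5 := hR2 (f μ)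
    rw [h4, map_zero] at h5
    exact h5.symm
  obtain ⟨x, hx⟩ := exists_ne (0 : H)
  have h2 := (h x).2.1
  simp only [h1, inner_zero_left, norm_zero] at h2
  simp at h2
  have h3 : 0 < ‖x‖ ^ 2 := by positivity
  nlinarith [mul_pos hA h3]

/-- No enumeration by the natural numbers of an overcomplete group frame is the orbit of a bounded
operator. -/
theorem no_nat (f : Λ → H) (hg : IsGroupFrame f) (hover : ¬ IsRieszBasis f) :
    ¬ HasBoundedOrdering ℕ f := by
  obtain ⟨R, v, hR2, hV, hd, hno⟩ := core' f hg hover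
  have hframe := hg.1
  have hb := hframe.bes
  have hdense := dense_span hframe
  rintro ⟨σ, hσ⟩
  have hF := bes_reindex σ f hb
  have hd' : (Submodule.span ℂ (Set.range (fun k => f (σ k))))ᗮ = ⊥ := by
    have : Set.range (fun k => f (σ k)) = Set.range f := σ.surjective.range_comp f
    rw [this]; exact hdense
  obtain ⟨T, hT⟩ := exists_extension _ hd' hσ
  have hR2' : ∀ x, sy (fun k => f (σ k)) hF (an (fun k => f (σ k)) hF (R x)) = x := by
    intro x; rw [reindex_eq σ f hb hF]; exact hR2 x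
  have ht := toeplitz (fun k => f (σ k)) hF R T (fun k => k + 1) (add_left_injective 1) hR2' hT
    v (fun i => hd (σ i))
  have h1 : ∀ i j, (inner ℂ (f (σ i)) (R (f (σ (i + j + 1)))) : ℂ) = 0 := by
    intro i
    induction i with
    | zero =>
      intro j
      have := (ht j).2 0 (by simp)
      simpa using this
    | succ i ih =>
      intro j
      have := (ht (i + j + 1)).1 i
      have e : i + 1 + j + 1 = i + j + 1 + 1 := by ring
      rw [e]
      exact this.trans (ih j)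
  have h2 : ∀ i j, (inner ℂ (f (σ (i + j + 1))) (R (f (σ i))) : ℂ) = 0 := by
    intro i j
    rw [inner_R f hb R hR2, ← inner_conj_symm, ← inner_R f hb R hR2, h1, map_zero]
  apply hno
  intro μ l hne
  obtain ⟨i, rfl⟩ := σ.surjective μ
  obtain ⟨j, rfl⟩ := σ.surjective l
  have hij : i ≠ j := fun h => hne (by rw [h])
  rcases Nat.lt_or_gt_of_ne hij with hlt | hlt
  · obtain ⟨k, rfl⟩ := Nat.exists_eq_add_of_lt hlt
    exact h1 i k
  · obtain ⟨k, rfl⟩ := Nat.exists_eq_add_of_lt hlt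
    exact h2 j k

/-- If an enumeration by the integers of an overcomplete group frame is the orbit of a bounded
operator, then the group is virtually infinite cyclic. -/
theorem int_virt (f : Λ → H) (hg : IsGroupFrame f) (hover : ¬ IsRieszBasis f)
    (hord : HasBoundedOrdering ℤ f) : VirtuallyZ Λ := by
  obtain ⟨R, v, hR2, hV, hd, hno⟩ := core' f hg hover
  have hframe := hg.1
  have hb := hframe.bes
  have hdense := dense_span hframe
  obtain ⟨σ, hσ⟩ := hord
  have hF := bes_reindex σ f hb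
  have hd' : (Submodule.span ℂ (Set.range (fun k => f (σ k))))ᗮ = ⊥ := by
    have : Set.range (fun k => f (σ k)) = Set.range f := σ.surjective.range_comp f
    rw [this]; exact hdense
  obtain ⟨T, hT⟩ := exists_extension _ hd' hσ
  have hR2' : ∀ x, sy (fun k => f (σ k)) hF (an (fun k => f (σ k)) hF (R x)) = x := by
    intro x; rw [reindex_eq σ f hb hF]; exact hR2 x
  have ht := toeplitz (fun k => f (σ k)) hF R T (fun k => k + 1) (add_left_injective 1) hR2' hT
    v (fun i => hd (σ i))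
  set p : ℤ → ℝ := fun n => ‖(inner ℂ (f (σ n)) (R (f (σ 0))) : ℂ)‖ with hp
  have h1 : ∀ i j : ℤ, ‖(inner ℂ (f (σ (j + i))) (R (f (σ i))) : ℂ)‖ = p j := by
    intro i
    induction i using Int.induction_on with
    | zero => intro j; simp [hp]
    | succ i ih =>
      intro j
      have := (ht (i : ℤ)).1 (j + i)
      rw [← ih j, ← add_assoc]
      exact congrArg norm this
    | pred i ih =>
      intro j
      have := (ht (-(i : ℤ) - 1)).1 (j + (-(i : ℤ) - 1))
      rw [← ih j]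
      have e1 : j + (-(i : ℤ) - 1) + 1 = j + -(i : ℤ) := by ring
      have e2 : -(i : ℤ) - 1 + 1 = -(i : ℤ) := by ring
      rw [e1, e2] at this
      exact (congrArg norm this).symm
  have h2 : ∀ i j : ℤ, ‖(inner ℂ (f (σ i)) (R (f (σ j))) : ℂ)‖ = p (i - j) := by
    intro i j
    rw [← h1 j (i - j), sub_add_cancel]
  have hs : Summable (fun n => p n ^ 2) := by
    have := summable_sq_lp (an (fun k => f (σ k)) hF (R (f (σ 0))))
    exact this
  have hfin : ∀ c : ℝ, 0 < c → {n : ℤ | c ≤ p n}.Finite := by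
    intro c hc
    have h3 := hs.tendsto_cofinite_zero
    have h4 := h3.eventually (gt_mem_nhds (show (0:ℝ) < c ^ 2 by positivity))
    rw [Filter.eventually_cofinite] at h4
    refine h4.subset ?_
    intro n hn
    simp only [Set.mem_ofPred_eq, not_lt] at hn ⊢
    gcongr
  by_contra hvirt
  apply hno
  intro μ l hne
  obtain ⟨i, rfl⟩ := σ.surjective μ
  obtain ⟨j, rfl⟩ := σ.surjective l
  have hij : i - j ≠ 0 := fun h => hne (by rw [sub_eq_zero.1 h])
  rw [← norm_eq_zero, h2]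
  by_contra hne0
  have hpos : 0 < p (i - j) := lt_of_le_of_ne (norm_nonneg _) (Ne.symm hne0)
  exact hvirt (virt_of_kernel σ (fun μ l => ‖(inner ℂ (f μ) (R (f l)) : ℂ)‖) p hV h2 hfin
    (i - j) hij hpos)

end

/-- `ℤ × ℤ` is not virtually cyclic. -/
lemma not_virt_zz : ¬ VirtuallyZ (Multiplicative (ℤ × ℤ)) := by
  rintro ⟨h, -, hfin⟩
  obtain ⟨N, hN, h1⟩ : ∃ N : ℕ, 0 < N ∧ ∀ g : Multiplicative (ℤ × ℤ),
      g ^ N ∈ Subgroup.zpowers h := by
    refine ⟨(Subgroup.zpowers h).index, Nat.pos_of_ne_zero hfin.index_ne_zero, fun g => ?_⟩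
    exact (Subgroup.zpowers h).pow_index_mem g
  obtain ⟨a, ha⟩ := Subgroup.mem_zpowers_iff.mp (h1 (Multiplicative.ofAdd (1, 0)))
  obtain ⟨b, hb⟩ := Subgroup.mem_zpowers_iff.mp (h1 (Multiplicative.ofAdd (0, 1)))
  obtain ⟨w, hw⟩ : ∃ w : ℤ × ℤ, w = Multiplicative.toAdd h := ⟨_, rfl⟩
  have ha' : a • w = N • ((1, 0) : ℤ × ℤ) := by
    rw [hw]; exact congrArg Multiplicative.toAdd ha
  have hb' : b • w = N • ((0, 1) : ℤ × ℤ) := by
    rw [hw]; exact congrArg Multiplicative.toAdd hb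
  have e1 := congrArg Prod.fst ha'
  have e2 := congrArg Prod.snd ha'
  have e4 := congrArg Prod.snd hb'
  simp only [Prod.smul_fst, Prod.smul_snd, smul_eq_mul] at e1 e2 e4
  have hN' : (N : ℤ) ≠ 0 := by exact_mod_cast hN.ne'
  have ha0 : a ≠ 0 := by
    rintro rfl
    rw [zero_mul] at e1
    exact hN' (by simpa using e1.symm)
  have h20 : w.2 = 0 := (mul_eq_zero.mp (show a * w.2 = 0 by simpa using e2)).resolve_left ha0
  rw [h20, mul_zero] at e4
  exact hN' (by simpa using e4.symm)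

end Pool.Agent.Y165.GO
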