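import Pool.Agent.Y165.GO.Act

/-!
# Invariant kernels which are Toeplitz in an enumeration by the integers
-/

set_option autoImplicit false

namespace Pool.Agent.Y165.GO

lemma finiteIndex_of_cover {Λ : Type*} [Group Λ] (h : Λ) (R : Set Λ) (hR : R.Finite)
    (hc : ∀ g, ∃ n : ℤ, ∃ y ∈ R, g = h ^ n * y) : (Subgroup.zpowers h).FiniteIndex := by
  have hf : Finite R := hR.to_subtype
  have : Finite (Λ ⧸ Subgroup.zpowers h) := by
    apply Finite.of_surjective (fun y : R => (QuotientGroup.mk (y : Λ)⁻¹ : Λ ⧸ Subgroup.zpowers h))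
    intro q
    induction q using QuotientGroup.induction_on with
    | H g =>
      obtain ⟨n, y, hy, e⟩ := hc g⁻¹
      refine ⟨⟨y, hy⟩, ?_⟩
      rw [QuotientGroup.eq]
      have e2 : g = (h ^ n * y)⁻¹ := by rw [← e, inv_inv]
      rw [Subgroup.mem_zpowers_iff]
      refine ⟨-n, ?_⟩
      rw [e2]
      simp only [inv_inv, mul_inv_rev, zpow_neg]
      group
  exact Subgroup.finiteIndex_of_finite_quotient

/-- **Kernels.** If the modulus of an invariant kernel on a group is Toeplitz in an enumeration of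
the group by the integers, tends to zero, and is not diagonal, then the group is virtually
infinite cyclic. -/
theorem virt_of_kernel {Λ : Type*} [Group Λ] (σ : ℤ ≃ Λ) (W : Λ → Λ → ℝ) (p : ℤ → ℝ)
    (hW : ∀ ν μ l, W (ν * μ) (ν * l) = W μ l) (h : ∀ i j, W (σ i) (σ j) = p (i - j))
    (hfin : ∀ c : ℝ, 0 < c → {n : ℤ | c ≤ p n}.Finite) (n₀ : ℤ) (hn₀ : n₀ ≠ 0) (hp : 0 < p n₀) :
    VirtuallyZ Λ := by
  classical
  set J : Set ℤ := {n | p n₀ ≤ p n} with hJ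
  obtain ⟨M, hM⟩ : ∃ M : ℤ, ∀ n ∈ J, |n| ≤ M := by
    have hf := (hfin _ hp).image (fun n : ℤ => |n|)
    obtain ⟨M, hM⟩ := hf.bddAbove
    exact ⟨M, fun n hn => hM ⟨n, hn, rfl⟩⟩
  set φ : Λ → ℤ → ℤ := fun ν i => σ.symm (ν * σ i) with hφ
  have hφs : ∀ ν i, σ (φ ν i) = ν * σ i := fun ν i => σ.apply_symm_apply _
  have hφmul : ∀ ν μ i, φ (ν * μ) i = φ ν (φ μ i) := by
    intro ν μ i
    apply σ.injective
    rw [hφs, hφs, hφs, mul_assoc]
  have hφone : ∀ i, φ 1 i = i := by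
    intro i
    apply σ.injective
    rw [hφs, one_mul]
  have hφfree : ∀ ν μ i, φ ν i = φ μ i → ν = μ := by
    intro ν μ i hi
    have h1 := congrArg σ hi
    rw [hφs, hφs] at h1
    exact mul_right_cancel h1
  have hφtr : ∀ m, φ (σ m * (σ 0)⁻¹) 0 = m := by
    intro m
    apply σ.injective
    rw [hφs, inv_mul_cancel_right]
  have hφJ : ∀ ν i j, i - j ∈ J → φ ν i - φ ν j ∈ J := by
    intro ν i j hij
    show p n₀ ≤ p (φ ν i - φ ν j)
    rw [← h, hφs, hφs, hW, h]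
    exact hij
  set S := AddSubgroup.closure J with hS
  have hL1 : ∀ s ∈ S, ∃ C : ℤ, ∀ ν i, |φ ν (i + s) - φ ν i| ≤ C ∧ φ ν (i + s) - φ ν i ∈ S := by
    intro s hs
    induction hs using AddSubgroup.closure_induction with
    | mem s hs =>
      refine ⟨M, fun ν i => ?_⟩
      have h1 := hφJ ν (i + s) i (by simpa using hs)
      exact ⟨hM _ h1, AddSubgroup.subset_closure h1⟩
    | zero =>
      refine ⟨0, fun ν i => ?_⟩
      rw [add_zero, sub_self, abs_zero]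
      exact ⟨le_refl _, S.zero_mem⟩
    | add s t _ _ ihs iht =>
      obtain ⟨C, hC⟩ := ihs
      obtain ⟨C', hC'⟩ := iht
      refine ⟨C' + C, fun ν i => ?_⟩
      have h1 := hC ν i
      have h2 := hC' ν (i + s)
      have e : φ ν (i + (s + t)) - φ ν i =
          (φ ν (i + s + t) - φ ν (i + s)) + (φ ν (i + s) - φ ν i) := by
        rw [← add_assoc]; ring
      rw [e]
      exact ⟨(abs_add_le _ _).trans (add_le_add h2.1 h1.1), S.add_mem h2.2 h1.2⟩
    | neg s _ ihs =>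
      obtain ⟨C, hC⟩ := ihs
      refine ⟨C, fun ν i => ?_⟩
      have h1 := hC ν (i + -s)
      rw [neg_add_cancel_right] at h1
      rw [abs_sub_comm]
      refine ⟨h1.1, ?_⟩
      have h2 := S.neg_mem h1.2
      rwa [neg_sub] at h2
  obtain ⟨a, ha⟩ := Int.subgroup_cyclic S
  have hmem : ∀ s, s ∈ S ↔ ∃ k : ℤ, s = a * k := by
    intro s
    rw [ha, AddSubgroup.mem_closure_singleton]
    constructor
    · rintro ⟨k, hk⟩
      exact ⟨k, by rw [← hk, smul_eq_mul, mul_comm]⟩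
    · rintro ⟨k, hk⟩
      exact ⟨k, by rw [hk, smul_eq_mul, mul_comm]⟩
  have ha0 : a ≠ 0 := by
    rintro rfl
    have h1 : n₀ ∈ S := AddSubgroup.subset_closure (le_refl (p n₀))
    obtain ⟨k, hk⟩ := (hmem n₀).mp h1
    exact hn₀ (by rw [hk, zero_mul])
  have haS : a ∈ S := (hmem a).mpr ⟨1, by ring⟩
  obtain ⟨C, hC⟩ := hL1 a haS
  have hshift : ∀ ν i, ∀ s ∈ S, φ ν (i + s) - φ ν i ∈ S := by
    intro ν i s hs
    obtain ⟨C, hC⟩ := hL1 s hs
    exact (hC ν i).2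
  -- the stabiliser of the residue class
  let Λ₀ : Subgroup Λ :=
    { carrier := {ν | φ ν 0 ∈ S}
      one_mem' := by
        show φ 1 0 ∈ S
        rw [hφone]
        exact S.zero_mem
      mul_mem' := by
        intro ν μ hν hμ
        show φ (ν * μ) 0 ∈ S
        have h1 := hshift ν 0 _ hμ
        rw [zero_add] at h1
        rw [hφmul]
        have h2 := S.add_mem h1 hν
        rwa [sub_add_cancel] at h2
      inv_mem' := by
        intro ν hν
        show φ ν⁻¹ 0 ∈ S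
        have h1 := hshift ν⁻¹ 0 _ hν
        rw [zero_add, ← hφmul, inv_mul_cancel, hφone, zero_sub] at h1
        simpa using S.neg_mem h1 }
  have hΛ₀ : ∀ ν : Λ, ν ∈ Λ₀ ↔ φ ν 0 ∈ S := fun ν => Iff.rfl
  let ψ : Λ₀ → ℤ → ℤ := fun ν q => φ (ν : Λ) (a * q) / a
  have hψ : ∀ (ν : Λ₀) q, a * ψ ν q = φ (ν : Λ) (a * q) := by
    intro ν q
    apply Int.mul_ediv_cancel'
    have h1 := hshift (ν : Λ) 0 (a * q) ((hmem _).mpr ⟨q, rfl⟩)
    rw [zero_add] at h1
    have h2 := S.add_mem h1 ((hΛ₀ _).mp ν.2)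
    rw [sub_add_cancel] at h2
    obtain ⟨k, hk⟩ := (hmem _).mp h2
    exact ⟨k, hk⟩
  have hact : Act ψ (max C 1) := by
    refine ⟨?_, ?_, le_max_right _ _, ?_, ?_, ?_⟩
    · intro q
      apply mul_left_cancel₀ ha0
      rw [hψ]
      exact hφone _
    · intro ν μ q
      apply mul_left_cancel₀ ha0
      rw [hψ, hψ, hψ]
      exact hφmul _ _ _
    · intro ν q
      have h1 := (hC (ν : Λ) (a * q)).1
      have h2 : a * (ψ ν (q + 1) - ψ ν q) = φ (ν : Λ) (a * q + a) - φ (ν : Λ) (a * q) := by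
        rw [mul_sub, hψ, hψ, mul_add, mul_one]
      rw [← h2, abs_mul] at h1
      have h3 : (1 : ℤ) ≤ |a| := Int.one_le_abs ha0
      have h4 : |ψ ν (q + 1) - ψ ν q| ≤ |a| * |ψ ν (q + 1) - ψ ν q| :=
        le_mul_of_one_le_left (abs_nonneg _) h3
      exact (h4.trans h1).trans (le_max_left _ _)
    · intro ν μ q hq
      have h1 : φ (ν : Λ) (a * q) = φ (μ : Λ) (a * q) := by rw [← hψ, ← hψ, hq]
      exact Subtype.ext (hφfree _ _ _ h1)
    · intro m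
      have h1 : φ (σ (a * m) * (σ 0)⁻¹) 0 = a * m := hφtr _
      refine ⟨⟨σ (a * m) * (σ 0)⁻¹, (hΛ₀ _).mpr (by rw [h1]; exact (hmem _).mpr ⟨m, rfl⟩)⟩, ?_⟩
      apply mul_left_cancel₀ ha0
      rw [hψ]
      simpa using h1
  obtain ⟨g₀, F, hF, hord, hcov⟩ := hact.main
  refine ⟨(g₀ : Λ), fun n hn h1 => hord n hn (Subtype.ext (by simpa using h1)), ?_⟩
  refine finiteIndex_of_cover (g₀ : Λ)
    (Set.image2 (fun (x : Λ₀) (r : ℤ) => (x : Λ) * (σ r * (σ 0)⁻¹)⁻¹) F (Set.Icc 0 |a|))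
    (hF.image2 _ (Set.finite_Icc _ _)) ?_
  intro g
  set r : ℤ := φ g⁻¹ 0 % a with hr
  have hr0 : 0 ≤ r := Int.emod_nonneg _ ha0
  have hr1 : r < |a| := Int.emod_lt_abs _ ha0
  set y : Λ := σ r * (σ 0)⁻¹ with hy
  have hy0 : φ y 0 = r := hφtr r
  have hmem0 : y⁻¹ * g⁻¹ ∈ Λ₀ := by
    rw [hΛ₀, hφmul]
    have e : φ g⁻¹ 0 = r + a * (φ g⁻¹ 0 / a) := by rw [hr, Int.emod_add_mul_ediv]
    have h1 := hshift y⁻¹ r (a * (φ g⁻¹ 0 / a)) ((hmem _).mpr ⟨_, rfl⟩)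
    rw [← e] at h1
    have h2 : φ y⁻¹ r = 0 := by rw [← hy0, ← hφmul, inv_mul_cancel, hφone]
    rw [h2, sub_zero] at h1
    exact h1
  obtain ⟨n, x, hx, e⟩ := hcov (⟨y⁻¹ * g⁻¹, hmem0⟩ : Λ₀)⁻¹
  refine ⟨n, (x : Λ) * y⁻¹, ⟨x, hx, r, ⟨hr0, hr1.le⟩, rfl⟩, ?_⟩
  have e2 := congrArg (Subtype.val) e
  simp only [Subgroup.coe_inv, Subgroup.coe_mul, Subgroup.coe_zpow] at e2
  rw [← mul_assoc, ← e2]
  group

end Pool.Agent.Y165.GO
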