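import Pool.Agent.Y165.GO.Fr

/-!
# Group frames over virtually infinite cyclic groups: the abstract construction
-/

set_option autoImplicit false

open scoped InnerProductSpace

namespace Pool.Agent.Y165.GO

open Pool.Agent.Results.MP_6c6e33_an.GaborOrbit

/-! ### enumerations of virtually infinite cyclic groups -/

lemma exists_enum {Λ : Type*} [Group Λ] (h : Λ) (hord : ∀ n : ℕ, 0 < n → h ^ n ≠ 1)
    (hfin : (Subgroup.zpowers h).FiniteIndex) :
    ∃ (m : ℕ) (σ : ℤ ≃ Λ), 0 < m ∧ ∀ k q : ℤ, σ (k + m * q) = σ k * h ^ q := by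
  classical
  have hf : Finite (Λ ⧸ Subgroup.zpowers h) := inferInstance
  have : Fintype (Λ ⧸ Subgroup.zpowers h) := Fintype.ofFinite _
  set m := Fintype.card (Λ ⧸ Subgroup.zpowers h) with hm
  have hmpos : 0 < m := Fintype.card_pos
  let e : Fin m ≃ (Λ ⧸ Subgroup.zpowers h) := (Fintype.equivFin _).symm
  have hinj : ∀ q q' : ℤ, h ^ q = h ^ q' → q = q' := by
    have key : ∀ q q' : ℤ, q < q' → h ^ q ≠ h ^ q' := by
      intro q q' hlt heq
      have h1 : h ^ (q' - q) = 1 := by rw [zpow_sub, heq, mul_inv_cancel]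
      have h2 : ((q' - q).toNat : ℤ) = q' - q := Int.toNat_of_nonneg (by linarith)
      refine hord (q' - q).toNat (by omega) ?_
      rw [← zpow_natCast, h2, h1]
    intro q q' heq
    rcases lt_trichotomy q q' with h1 | h1 | h1
    · exact absurd heq (key _ _ h1)
    · exact h1
    · exact absurd heq.symm (key _ _ h1)
  have hm0 : (m : ℤ) ≠ 0 := by exact_mod_cast hmpos.ne'
  have hmp : (0 : ℤ) < m := by exact_mod_cast hmpos
  let rr : ℤ → Fin m := fun k => ⟨(k % m).toNat, by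
    have h1 := Int.emod_nonneg k hm0
    have h2 := Int.emod_lt_of_pos k hmp
    omega⟩
  let s : ℤ → Λ := fun k => (e (rr k)).out
  let f : ℤ → Λ := fun k => s k * h ^ (k / m)
  have hcos : ∀ k, (QuotientGroup.mk (f k) : Λ ⧸ Subgroup.zpowers h) = e (rr k) := by
    intro k
    have h1 : (QuotientGroup.mk (s k) : Λ ⧸ Subgroup.zpowers h) = e (rr k) :=
      QuotientGroup.out_eq' _
    rw [← h1]
    symm
    rw [QuotientGroup.eq]
    show (s k)⁻¹ * (s k * h ^ (k / m)) ∈ _
    rw [inv_mul_cancel_left]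
    exact Subgroup.zpow_mem_zpowers h _
  have hrr : ∀ k k' : ℤ, rr k = rr k' → k % (m : ℤ) = k' % (m : ℤ) := by
    intro k k' hk
    have h1 : (k % m).toNat = (k' % m).toNat := congrArg Fin.val hk
    have h2 := Int.emod_nonneg k hm0
    have h3 := Int.emod_nonneg k' hm0
    omega
  have hrr' : ∀ k k' : ℤ, k % (m : ℤ) = k' % (m : ℤ) → rr k = rr k' := by
    intro k k' hk
    apply Fin.ext
    show (k % m).toNat = (k' % m).toNat
    rw [hk]
  have hbij : Function.Bijective f := by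
    constructor
    · intro k k' hk
      have h1 : rr k = rr k' := by
        apply e.injective
        rw [← hcos, ← hcos, hk]
      have h2 : s k = s k' := by
        show (e (rr k)).out = (e (rr k')).out
        rw [h1]
      have h3 : h ^ (k / (m : ℤ)) = h ^ (k' / (m : ℤ)) := by
        have h4 : s k * h ^ (k / (m : ℤ)) = s k' * h ^ (k' / (m : ℤ)) := hk
        rw [h2] at h4
        exact mul_left_cancel h4
      have h5 := hinj _ _ h3
      have h6 := hrr k k' h1
      rw [← Int.emod_add_mul_ediv k m, ← Int.emod_add_mul_ediv k' m, h5, h6]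
    · intro g
      obtain ⟨r, hr⟩ := e.surjective (QuotientGroup.mk g)
      have h1 : (QuotientGroup.mk ((e r).out) : Λ ⧸ Subgroup.zpowers h) = QuotientGroup.mk g := by
        rw [← hr]
        exact QuotientGroup.out_eq' _
      rw [QuotientGroup.eq] at h1
      obtain ⟨q, hq⟩ := Subgroup.mem_zpowers_iff.mp h1
      refine ⟨(r : ℤ) + m * q, ?_⟩
      have h2 : ((r : ℤ) + m * q) % m = r := by
        rw [Int.add_mul_emod_self_left]
        exact Int.emod_eq_of_lt (by positivity) (by exact_mod_cast r.2)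
      have h3 : ((r : ℤ) + m * q) / m = q := by
        rw [Int.add_mul_ediv_left _ _ hm0, Int.ediv_eq_zero_of_lt (by positivity)
          (by exact_mod_cast r.2), zero_add]
      have h4 : rr ((r : ℤ) + m * q) = r := by
        apply Fin.ext
        show (((r : ℤ) + m * q) % m).toNat = r
        rw [h2]
        exact Int.toNat_natCast _
      show (e (rr ((r : ℤ) + m * q))).out * h ^ (((r : ℤ) + m * q) / (m : ℤ)) = g
      rw [h4, h3, hq, mul_inv_cancel_left]
  refine ⟨m, Equiv.ofBijective f hbij, hmpos, fun k q => ?_⟩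
  show f (k + m * q) = f k * h ^ q
  have h1 : rr (k + m * q) = rr k := hrr' _ _ (Int.add_mul_emod_self_left _ _ _)
  have h2 : (k + m * q) / (m : ℤ) = k / m + q := Int.add_mul_ediv_left _ _ hm0
  show (e (rr (k + m * q))).out * h ^ ((k + m * q) / (m : ℤ)) = (e (rr k)).out * h ^ (k / (m : ℤ)) * h ^ q
  rw [h1, h2, zpow_add, mul_assoc]

/-! ### projections of Hilbert bases -/

section

variable {L : Type*} [NormedAddCommGroup L] [InnerProductSpace ℂ L] [CompleteSpace L]

lemma exists_perm (b : HilbertBasis ℤ ℂ L) (τ : ℤ ≃ ℤ) :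
    ∃ U : L →ₗᵢ[ℂ] L, ∀ i, U (b i) = b (τ i) := by
  classical
  have ho : Orthonormal ℂ (fun i => b (τ i)) := b.orthonormal.comp τ τ.injective
  have hd : (Submodule.span ℂ (Set.range (fun i => b (τ i))))ᗮ = ⊥ := by
    have h1 : Set.range (fun i => b (τ i)) = Set.range b := τ.surjective.range_comp b
    rw [h1]
    exact Submodule.topologicalClosure_eq_top_iff.mp b.dense_span
  let b' := HilbertBasis.mkOfOrthogonalEqBot ho hd
  refine ⟨(b.repr.trans b'.repr.symm).toLinearIsometry, fun i => ?_⟩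
  show b'.repr.symm (b.repr (b i)) = _
  rw [b.repr_self, HilbertBasis.repr_symm_single]
  show (HilbertBasis.mkOfOrthogonalEqBot ho hd) i = _
  rw [HilbertBasis.coe_mkOfOrthogonalEqBot]

variable (K : Submodule ℂ L) [K.HasOrthogonalProjection]

/-- the projections of the basis vectors -/
noncomputable def ph (b : HilbertBasis ℤ ℂ L) (i : ℤ) : K := K.orthogonalProjectionOnto (b i)

omit [CompleteSpace L] in
lemma basis_ext (b : HilbertBasis ℤ ℂ L) {u v : L} (h : ∀ i, ⟪b i, u⟫_ℂ = ⟪b i, v⟫_ℂ) : u = v := by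
  apply b.repr.injective
  ext i
  rw [b.repr_apply_apply, b.repr_apply_apply]
  exact h i

lemma exists_restrict (b : HilbertBasis ℤ ℂ L) (τ : ℤ ≃ ℤ)
    (h : ∀ i j, ⟪b (τ i), (ph K b (τ j) : L)⟫_ℂ = ⟪b i, (ph K b j : L)⟫_ℂ) :
    ∃ V : K →ₗᵢ[ℂ] K, ∀ i, V (ph K b i) = ph K b (τ i) := by
  obtain ⟨U, hU⟩ := exists_perm b τ
  let P : L →L[ℂ] L := K.subtypeL.comp K.orthogonalProjectionOnto
  have hPb : ∀ i, P (b i) = (ph K b i : L) := fun i => rfl
  have hPK : ∀ x : K, P (x : L) = x := by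
    intro x
    show ((K.orthogonalProjectionOnto (x : L) : K) : L) = x
    rw [Submodule.orthogonalProjectionOnto_mem_subspace_eq_self]
  have hcomm : P.comp U.toContinuousLinearMap = U.toContinuousLinearMap.comp P := by
    have hdense : Dense (Submodule.span ℂ (Set.range b) : Set L) := by
      rw [Submodule.dense_iff_topologicalClosure_eq_top]
      exact b.dense_span
    apply ContinuousLinearMap.ext_on hdense
    rintro _ ⟨j, rfl⟩
    show P (U (b j)) = U (P (b j))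
    rw [hU, hPb, hPb]
    apply basis_ext b
    intro k
    obtain ⟨i, rfl⟩ := τ.surjective k
    rw [h, ← hU i, U.inner_map_map]
  have hcomm' : ∀ x, P (U x) = U (P x) := fun x => congrArg (fun T : L →L[ℂ] L => T x) hcomm
  have hmem : ∀ x : K, U (x : L) ∈ K := by
    intro x
    have h1 := hcomm' (x : L)
    rw [hPK] at h1
    rw [← h1]
    exact (K.orthogonalProjectionOnto (U (x : L))).2
  refine ⟨{ toFun := fun x => ⟨U (x : L), hmem x⟩
            map_add' := fun x y => Subtype.ext (by simp)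
            map_smul' := fun c x => Subtype.ext (by simp)
            norm_map' := fun x => U.norm_map (x : L) }, fun i => ?_⟩
  apply Subtype.ext
  show U (ph K b i : L) = (ph K b (τ i) : L)
  rw [← hPb, ← hcomm', hU, hPb]

omit [CompleteSpace L] in
lemma inner_ph (b : HilbertBasis ℤ ℂ L) (i : ℤ) (x : K) : ⟪ph K b i, x⟫_ℂ = ⟪b i, (x : L)⟫_ℂ :=
  Submodule.inner_orthogonalProjectionOnto_eq_of_mem_right x (b i)

omit [CompleteSpace L] in
lemma parseval (b : HilbertBasis ℤ ℂ L) (x : L) :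
    Summable (fun i => ‖⟪b i, x⟫_ℂ‖ ^ 2) ∧ ∑' i, ‖⟪b i, x⟫_ℂ‖ ^ 2 = ‖x‖ ^ 2 := by
  have h1 := summable_sq_lp (b.repr x)
  have h2 := norm_sq_lp (b.repr x)
  simp only [b.repr_apply_apply] at h1 h2
  refine ⟨h1, ?_⟩
  rw [← h2, b.repr.norm_map]

/-- **The abstract construction.** -/
theorem sharp_abstract (b : HilbertBasis ℤ ℂ L) (hK : K ≠ ⊤) {Λ : Type*} [Group Λ]
    (σ : ℤ ≃ Λ)
    (hT : ∀ i j, ⟪b (i + 1), (ph K b (j + 1) : L)⟫_ℂ = ⟪b i, (ph K b j : L)⟫_ℂ)
    (hG : ∀ (ν : Λ) (i j : ℤ), ⟪b (σ.symm (ν * σ i)), (ph K b (σ.symm (ν * σ j)) : L)⟫_ℂ =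
      ⟪b i, (ph K b j : L)⟫_ℂ) :
    IsGroupFrame (fun μ : Λ => ph K b (σ.symm μ)) ∧
      ¬ IsRieszBasis (fun μ : Λ => ph K b (σ.symm μ)) ∧
      HasBoundedOrdering ℤ (fun μ : Λ => ph K b (σ.symm μ)) := by
  refine ⟨⟨?_, ?_⟩, ?_, ?_⟩
  · refine ⟨1, 1, one_pos, one_pos, fun x => ?_⟩
    obtain ⟨h1, h2⟩ := parseval b (x : L)
    have h3 : ∀ i, ‖⟪ph K b i, x⟫_ℂ‖ ^ 2 = ‖⟪b i, (x : L)⟫_ℂ‖ ^ 2 := fun i => by
      rw [inner_ph]
    have h4 : Summable (fun i => ‖⟪ph K b i, x⟫_ℂ‖ ^ 2) := by simpa only [h3] using h1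
    have h5 : ∑' i, ‖⟪ph K b i, x⟫_ℂ‖ ^ 2 = ‖x‖ ^ 2 := by
      simp only [h3]
      rw [h2]
      rfl
    have h6 : ∑' μ : Λ, ‖⟪ph K b (σ.symm μ), x⟫_ℂ‖ ^ 2 = ‖x‖ ^ 2 := by
      rw [← h5]
      exact σ.symm.tsum_eq (fun i => ‖⟪ph K b i, x⟫_ℂ‖ ^ 2)
    refine ⟨(σ.symm.summable_iff (f := fun i => ‖⟪ph K b i, x⟫_ℂ‖ ^ 2)).mpr h4, ?_, ?_⟩
    · rw [h6, one_mul]
    · rw [h6, one_mul]
  · intro ν
    obtain ⟨V, hV⟩ := exists_restrict K b ((σ.trans (Equiv.mulLeft ν)).trans σ.symm)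
      (fun i j => hG ν i j)
    refine ⟨V, fun _ => 1, fun _ => by simp, fun μ => ?_⟩
    rw [hV, one_smul]
    show ph K b (σ.symm (ν * σ (σ.symm μ))) = _
    rw [σ.apply_symm_apply]
  · rintro ⟨-, A, B, hA, hB, hAB⟩
    obtain ⟨y, hyK, hy0⟩ : ∃ y ∈ Kᗮ, y ≠ 0 := by
      by_contra hcon
      push Not at hcon
      apply hK
      rw [← Submodule.orthogonal_eq_bot_iff]
      exact (Submodule.eq_bot_iff _).mpr hcon
    obtain ⟨i₀, hi₀⟩ : ∃ i, ⟪b i, y⟫_ℂ ≠ 0 := by
      by_contra hcon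
      push Not at hcon
      apply hy0
      apply basis_ext b
      intro i
      rw [hcon i, inner_zero_right]
    let P : L →L[ℂ] K := K.orthogonalProjectionOnto
    have h1 : HasSum (fun i => ⟪b i, y⟫_ℂ • ph K b i) 0 := by
      have h2 := (b.hasSum_repr y).mapL P
      have h3 : P y = 0 := by
        show K.orthogonalProjectionOnto y = 0
        rw [Submodule.orthogonalProjectionOnto_eq_zero_iff]
        exact hyK
      rw [h3] at h2
      refine h2.congr_fun ?_
      intro i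
      rw [map_smul, b.repr_apply_apply]
      rfl
    have h4 : HasSum (fun μ : Λ => ⟪b (σ.symm μ), y⟫_ℂ • ph K b (σ.symm μ)) 0 :=
      (σ.symm.hasSum_iff (f := fun i => ⟪b i, y⟫_ℂ • ph K b i)).mpr h1
    have h5 : Filter.Tendsto (fun s : Finset Λ =>
        ‖∑ μ ∈ s, ⟪b (σ.symm μ), y⟫_ℂ • ph K b (σ.symm μ)‖ ^ 2) Filter.atTop (nhds 0) := by
      have h6 := (h4 : Filter.Tendsto _ _ _).norm.pow 2
      simpa using h6
    have h7 : A * ‖⟪b i₀, y⟫_ℂ‖ ^ 2 ≤ 0 := by
      refine ge_of_tendsto h5 ?_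
      filter_upwards [Filter.eventually_ge_atTop ({σ i₀} : Finset Λ)] with s hs
      refine le_trans ?_ (hAB s (fun μ => ⟪b (σ.symm μ), y⟫_ℂ)).1
      apply mul_le_mul_of_nonneg_left _ hA.le
      have h8 := Finset.single_le_sum (f := fun μ : Λ => ‖⟪b (σ.symm μ), y⟫_ℂ‖ ^ 2)
        (fun μ _ => by positivity) (hs (Finset.mem_singleton_self _))
      simpa using h8
    have h9 : 0 < ‖⟪b i₀, y⟫_ℂ‖ ^ 2 := by
      have := norm_pos_iff.mpr hi₀
      positivity
    nlinarith [mul_pos hA h9]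
  · obtain ⟨V, hV⟩ := exists_restrict K b (Equiv.addRight 1) (fun i j => hT i j)
    refine ⟨σ, V, ⟨fun x _ y _ => map_add V x y, fun c x _ => map_smul V c x, 1, fun x _ => ?_⟩,
      fun k => ?_⟩
    · rw [V.norm_map, one_mul]
    · show V (ph K b (σ.symm (σ k))) = ph K b (σ.symm (σ (k + 1)))
      rw [σ.symm_apply_apply, σ.symm_apply_apply, hV]
      rfl

end

end Pool.Agent.Y165.GO
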