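import Pool.Agent.Y165.GO.Sh1

/-!
# Group frames over virtually infinite cyclic groups: Fourier series
-/

set_option autoImplicit false

open MeasureTheory AddCircle
open scoped InnerProductSpace ComplexConjugate

namespace Pool.Agent.Y165.GO

open Pool.Agent.Results.MP_6c6e33_an.GaborOrbit

/-- square integrable functions on the circle -/
noncomputable abbrev LT := Lp ℂ 2 (haarAddCircle (T := (1 : ℝ)))

lemma memLp_four (k : ℤ) : MemLp (fun x : AddCircle (1 : ℝ) => (fourier k x : ℂ)) 2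
    haarAddCircle :=
  (memLp_congr_ae (coeFn_fourierLp 2 k)).mp (Lp.memLp (fourierLp 2 k))

lemma memLp_ind {S : Set (AddCircle (1 : ℝ))} (hS : MeasurableSet S) (k : ℤ) :
    MemLp (S.indicator (fun x : AddCircle (1 : ℝ) => (fourier k x : ℂ))) 2 haarAddCircle :=
  (memLp_four k).indicator hS

/-- the restriction of an exponential to `S` -/
noncomputable def psi {S : Set (AddCircle (1 : ℝ))} (hS : MeasurableSet S) (k : ℤ) : LT :=
  (memLp_ind hS k).toLp _

lemma coe_psi {S : Set (AddCircle (1 : ℝ))} (hS : MeasurableSet S) (k : ℤ) :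
    (psi hS k : AddCircle (1 : ℝ) → ℂ) =ᵐ[haarAddCircle]
      S.indicator (fun x : AddCircle (1 : ℝ) => (fourier k x : ℂ)) :=
  (memLp_ind hS k).coeFn_toLp

/-- Fourier coefficients of the indicator function of `S` -/
noncomputable def kap (S : Set (AddCircle (1 : ℝ))) (k : ℤ) : ℂ :=
  ∫ x, S.indicator (fun x : AddCircle (1 : ℝ) => (fourier k x : ℂ)) x ∂haarAddCircle

lemma bas (i : ℤ) : (fourierBasis (T := (1 : ℝ))) i = fourierLp 2 i := by
  rw [coe_fourierBasis]

lemma inner_b_psi {S : Set (AddCircle (1 : ℝ))} (hS : MeasurableSet S) (i j : ℤ) :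
    ⟪(fourierBasis (T := (1 : ℝ))) i, psi hS j⟫_ℂ = kap S (j - i) := by
  rw [bas, L2.inner_def]
  unfold kap
  apply integral_congr_ae
  filter_upwards [coeFn_fourierLp (T := (1 : ℝ)) 2 i, coe_psi hS j] with x h1 h2
  rw [h1, h2, RCLike.inner_apply]
  by_cases hx : x ∈ S
  · rw [Set.indicator_of_mem hx, Set.indicator_of_mem hx, sub_eq_add_neg, fourier_add,
      fourier_neg]
  · rw [Set.indicator_of_notMem hx, Set.indicator_of_notMem hx, zero_mul]

lemma b_eq {S : Set (AddCircle (1 : ℝ))} (hS : MeasurableSet S) (j : ℤ) :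
    (fourierBasis (T := (1 : ℝ))) j = psi hS j + psi hS.compl j := by
  rw [bas]
  apply Lp.ext
  filter_upwards [coeFn_fourierLp (T := (1 : ℝ)) 2 j, coe_psi hS j, coe_psi hS.compl j,
    Lp.coeFn_add (psi hS j) (psi hS.compl j)] with x h1 h2 h3 h4
  rw [h1, h4, Pi.add_apply, h2, h3]
  by_cases hx : x ∈ S
  · rw [Set.indicator_of_mem hx, Set.indicator_of_notMem (by simpa using hx), add_zero]
  · rw [Set.indicator_of_notMem hx, Set.indicator_of_mem (by simpa using hx), zero_add]

lemma orth {S : Set (AddCircle (1 : ℝ))} (hS : MeasurableSet S) (i j : ℤ) :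
    ⟪psi hS i, psi hS.compl j⟫_ℂ = 0 := by
  rw [L2.inner_def]
  have h : ∀ᵐ x ∂(haarAddCircle (T := (1 : ℝ))), ⟪(psi hS i : AddCircle (1 : ℝ) → ℂ) x,
      (psi hS.compl j : AddCircle (1 : ℝ) → ℂ) x⟫_ℂ = 0 := by
    filter_upwards [coe_psi hS i, coe_psi hS.compl j] with x h1 h2
    rw [h1, h2]
    by_cases hx : x ∈ S
    · rw [Set.indicator_of_notMem (s := Sᶜ) (by simpa using hx), inner_zero_right]
    · rw [Set.indicator_of_notMem hx, inner_zero_left]
  rw [integral_congr_ae h]
  simp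

lemma psi_ne {S : Set (AddCircle (1 : ℝ))} (hS : MeasurableSet S)
    (hpos : 0 < haarAddCircle (T := (1 : ℝ)) S) (k : ℤ) : psi hS k ≠ 0 := by
  intro h0
  have h1 := coe_psi hS k
  rw [h0] at h1
  have h2 : ∀ᵐ x ∂(haarAddCircle (T := (1 : ℝ))), x ∉ S := by
    filter_upwards [h1, Lp.coeFn_zero ℂ 2 (haarAddCircle (T := (1 : ℝ)))] with x h3 h4 hx
    rw [h4, Set.indicator_of_mem hx] at h3
    have h5 : ‖(fourier k x : ℂ)‖ = 1 := Circle.norm_coe _
    rw [← h3] at h5
    simp at h5
  rw [ae_iff] at h2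
  simp only [not_not] at h2
  exact hpos.ne' h2

/-- the space spanned by the restrictions of the exponentials to `S` -/
noncomputable def KS {S : Set (AddCircle (1 : ℝ))} (hS : MeasurableSet S) : Submodule ℂ LT :=
  (Submodule.span ℂ (Set.range (psi hS))).topologicalClosure

instance {S : Set (AddCircle (1 : ℝ))} (hS : MeasurableSet S) : CompleteSpace (KS hS) :=
  (Submodule.isClosed_topologicalClosure _).completeSpace_coe

lemma psi_mem {S : Set (AddCircle (1 : ℝ))} (hS : MeasurableSet S) (k : ℤ) :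
    psi hS k ∈ KS hS :=
  Submodule.le_topologicalClosure _ (Submodule.subset_span ⟨k, rfl⟩)

lemma psi_orth {S : Set (AddCircle (1 : ℝ))} (hS : MeasurableSet S) (k : ℤ) :
    psi hS.compl k ∈ (KS hS)ᗮ := by
  unfold KS
  rw [Submodule.orthogonal_closure, Submodule.mem_orthogonal]
  intro u hu
  induction hu using Submodule.span_induction with
  | mem y hy =>
    obtain ⟨i, rfl⟩ := hy
    exact orth hS i k
  | zero => simp
  | add a b _ _ ha hb => rw [inner_add_left, ha, hb, add_zero]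
  | smul c a _ ha => rw [inner_smul_left, ha, mul_zero]

lemma ph_eq {S : Set (AddCircle (1 : ℝ))} (hS : MeasurableSet S) (k : ℤ) :
    (ph (KS hS) (fourierBasis (T := (1 : ℝ))) k : LT) = psi hS k :=
  Submodule.eq_starProjection_of_mem_orthogonal' (psi_mem hS k) (psi_orth hS k) (b_eq hS k)

lemma inner_b_ph {S : Set (AddCircle (1 : ℝ))} (hS : MeasurableSet S) (i j : ℤ) :
    ⟪(fourierBasis (T := (1 : ℝ))) i, (ph (KS hS) (fourierBasis (T := (1 : ℝ))) j : LT)⟫_ℂ =
      kap S (j - i) := by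
  rw [ph_eq, inner_b_psi]

lemma KS_ne_top {S : Set (AddCircle (1 : ℝ))} (hS : MeasurableSet S)
    (hpos : 0 < haarAddCircle (T := (1 : ℝ)) Sᶜ) : KS hS ≠ ⊤ := by
  intro h
  have h1 := psi_orth hS 0
  rw [h, Submodule.top_orthogonal_eq_bot, Submodule.mem_bot] at h1
  exact psi_ne hS.compl hpos 0 h1

lemma KS_nontrivial {S : Set (AddCircle (1 : ℝ))} (hS : MeasurableSet S)
    (hpos : 0 < haarAddCircle (T := (1 : ℝ)) S) : Nontrivial (KS hS) :=
  ⟨⟨⟨psi hS 0, psi_mem hS 0⟩, 0, fun h => psi_ne hS hpos 0 (congrArg Subtype.val h)⟩⟩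

/-- translation invariant sets have few non-zero Fourier coefficients -/
lemma kap_zero {S : Set (AddCircle (1 : ℝ))} (t : AddCircle (1 : ℝ))
    (ht : ∀ x, t + x ∈ S ↔ x ∈ S) (k : ℤ) (hk : (fourier k t : ℂ) ≠ 1) : kap S k = 0 := by
  have h1 := integral_add_left_eq_self (μ := haarAddCircle (T := (1 : ℝ)))
    (S.indicator (fun x : AddCircle (1 : ℝ) => (fourier k x : ℂ))) t
  have h2 : ∀ x, S.indicator (fun x : AddCircle (1 : ℝ) => (fourier k x : ℂ)) (t + x) =
      (fourier k t : ℂ) * S.indicator (fun x : AddCircle (1 : ℝ) => (fourier k x : ℂ)) x := by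
    intro x
    by_cases hx : x ∈ S
    · rw [Set.indicator_of_mem hx, Set.indicator_of_mem ((ht x).mpr hx), fourier_apply,
        fourier_apply, fourier_apply, smul_add, toCircle_add, Circle.coe_mul]
    · rw [Set.indicator_of_notMem hx, Set.indicator_of_notMem (fun h => hx ((ht x).mp h)),
        mul_zero]
  simp_rw [h2] at h1
  rw [integral_const_mul] at h1
  have h3 : ((fourier k t : ℂ) - 1) * kap S k = 0 := by
    unfold kap
    rw [sub_mul, h1, one_mul, sub_self]
  exact (mul_eq_zero.mp h3).resolve_left (sub_ne_zero.mpr hk)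

lemma four_ne {m : ℕ} (hm : 0 < m) {k : ℤ} (hk : ¬ (m : ℤ) ∣ k) :
    (fourier k (((1 / (m : ℝ) : ℝ)) : AddCircle (1 : ℝ)) : ℂ) ≠ 1 := by
  rw [fourier_coe_apply]
  intro h
  rw [Complex.exp_eq_one_iff] at h
  obtain ⟨n, hn⟩ := h
  apply hk
  have hm' : (m : ℂ) ≠ 0 := by exact_mod_cast hm.ne'
  have hpi : (Real.pi : ℂ) ≠ 0 := by exact_mod_cast Real.pi_ne_zero
  have h1 : (k : ℂ) = n * m := by
    have hI := Complex.I_ne_zero
    push_cast at hn
    field_simp at hn
    linear_combination hn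
  exact ⟨n, by have h2 : k = n * m := by exact_mod_cast h1
               rw [h2]; ring⟩

lemma half_ne : (0 : AddCircle (1 : ℝ)) ≠ (((1 / 2 : ℝ)) : AddCircle (1 : ℝ)) := by
  intro h
  have h1 := four_ne (m := 2) (by norm_num) (k := 1) (by norm_num)
  apply h1
  have h2 : (((1 / ((2 : ℕ) : ℝ) : ℝ)) : AddCircle (1 : ℝ)) = 0 := by
    rw [h]
    norm_num
  rw [h2]
  simp

/-- **Every virtually infinite cyclic group has an overcomplete group frame with a bounded
enumeration by the integers.** -/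
theorem sharp {Λ : Type} [Group Λ] (hΛ : VirtuallyZ Λ) :
    ∃ (H : Type) (_ : NormedAddCommGroup H) (_ : InnerProductSpace ℂ H) (_ : CompleteSpace H)
      (_ : Nontrivial H) (f : Λ → H), IsGroupFrame f ∧ ¬ IsRieszBasis f ∧
        HasBoundedOrdering ℤ f := by
  obtain ⟨h, hord, hfin⟩ := hΛ
  obtain ⟨m, σ, hm, hσ⟩ := exists_enum h hord hfin
  obtain ⟨U, V, hU, hV, h0, h1, hUV⟩ := t2_separation half_ne
  set S : Set (AddCircle (1 : ℝ)) := (fun x => m • x) ⁻¹' U with hSdef
  have hcont : Continuous (fun x : AddCircle (1 : ℝ) => m • x) := continuous_const_smul m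
  have hSo : IsOpen S := hU.preimage hcont
  have hS : MeasurableSet S := hSo.measurableSet
  have hpos : 0 < haarAddCircle (T := (1 : ℝ)) S := by
    refine IsOpen.measure_pos (haarAddCircle (T := (1 : ℝ))) hSo ?_
    exact ⟨0, by show m • (0 : AddCircle (1 : ℝ)) ∈ U; rw [smul_zero]; exact h0⟩
  have hm0 : (m : ℝ) ≠ 0 := by exact_mod_cast hm.ne'
  have hpos' : 0 < haarAddCircle (T := (1 : ℝ)) Sᶜ := by
    have h2 : 0 < haarAddCircle (T := (1 : ℝ)) ((fun x => m • x) ⁻¹' V) := by
      refine IsOpen.measure_pos (haarAddCircle (T := (1 : ℝ))) (hV.preimage hcont) ?_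
      refine ⟨(((1 / 2) / m : ℝ) : AddCircle (1 : ℝ)), ?_⟩
      show m • (((1 / 2) / m : ℝ) : AddCircle (1 : ℝ)) ∈ V
      have e : m • ((((1 / 2) / m : ℝ)) : AddCircle (1 : ℝ)) =
          (((1 / 2 : ℝ)) : AddCircle (1 : ℝ)) := by
        rw [← AddCircle.coe_nsmul, nsmul_eq_mul]
        congr 1
        field_simp
      rw [e]
      exact h1
    refine h2.trans_le (measure_mono ?_)
    intro x hx hxS
    exact Set.disjoint_left.mp hUV hxS hx
  set t : AddCircle (1 : ℝ) := (((1 / (m : ℝ) : ℝ)) : AddCircle (1 : ℝ)) with ht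
  have hmt : m • t = 0 := by
    rw [ht, ← AddCircle.coe_nsmul, nsmul_eq_mul, mul_one_div_cancel hm0]
    exact AddCircle.coe_period 1
  have htS : ∀ x, t + x ∈ S ↔ x ∈ S := by
    intro x
    show m • (t + x) ∈ U ↔ m • x ∈ U
    rw [smul_add, hmt, zero_add]
  have hkap : ∀ k : ℤ, ¬ (m : ℤ) ∣ k → kap S k = 0 := fun k hk =>
    kap_zero t htS k (four_ne hm hk)
  have hnt := KS_nontrivial hS hpos
  have key := sharp_abstract (KS hS) (fourierBasis (T := (1 : ℝ))) (KS_ne_top hS hpos') σ
    (fun i j => by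
      rw [inner_b_ph, inner_b_ph]
      congr 1
      ring)
    (fun ν i j => by
      rw [inner_b_ph, inner_b_ph]
      have hstep : ∀ i q : ℤ, σ.symm (ν * σ (i + m * q)) = σ.symm (ν * σ i) + m * q := by
        intro i q
        apply σ.injective
        rw [σ.apply_symm_apply, hσ, hσ, σ.apply_symm_apply, mul_assoc]
      by_cases hd : (m : ℤ) ∣ j - i
      · obtain ⟨q, hq⟩ := hd
        have hj : j = i + m * q := by linarith
        rw [hj, hstep]
        congr 1
        ring
      · have hd' : ¬ (m : ℤ) ∣ σ.symm (ν * σ j) - σ.symm (ν * σ i) := by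
          rintro ⟨q, hq⟩
          apply hd
          have h3 : σ.symm (ν * σ j) = σ.symm (ν * σ (i + m * q)) := by
            rw [hstep]; linarith
          have h4 := σ.injective (mul_left_cancel (σ.symm.injective h3))
          exact ⟨q, by linarith⟩
        rw [hkap _ hd, hkap _ hd'])
  exact ⟨KS hS, inferInstance, inferInstance, inferInstance, hnt, _, key⟩

end Pool.Agent.Y165.GO
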